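import Pool.Agent.H65.BHG.Main

/-!
For every `h ≥ 2` there is a `B_h[h]`-set of positive integers which is an asymptotic basis of
order `h + 1`; that is, `g(h) ≤ h`, in particular `g(h)` is finite.

Method: a random set with one element in each of about `2 ^ (γ j)` equal cells of every dyadic
block `[2 ^ j, 2 ^ (j+1))`, where `γ` is slightly larger than `1/(h+1)`, from which every element
taking part in a coincidence of `h+1` representations with `h` summands is deleted.
-/

namespace Pool.Agent.Results.MP_3c1669_nt.UpperBound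

/-- `A` is a `B_h[g]`-set: every integer has at most `g` representations as a sum of `h` elements
of `A`, where representations are counted as multisets. -/
def IsBhg (A : Set ℕ) (h g : ℕ) : Prop :=
  ∀ n : ℕ, {m : Multiset ℕ | m.card = h ∧ m.sum = n ∧ ∀ a ∈ m, a ∈ A}.encard ≤ g

/-- `A` is an asymptotic basis of order `k`: every sufficiently large integer is a sum of exactly
`k` elements of `A`, repetitions allowed. -/
def IsAsymptoticBasis (A : Set ℕ) (k : ℕ) : Prop :=
  ∃ N : ℕ, ∀ n ≥ N, ∃ m : Multiset ℕ, m.card = k ∧ m.sum = n ∧ ∀ a ∈ m, a ∈ A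

/-- For every `h ≥ 2` some `B_h[h]`-set of positive integers is an asymptotic basis of order
`h + 1`. -/
theorem result (h : ℕ) (hh : 2 ≤ h) :
    ∃ A : Set ℕ, (∀ a ∈ A, 0 < a) ∧ IsBhg A h h ∧ IsAsymptoticBasis A (h + 1) := by
  obtain ⟨A, h1, h2, h3⟩ := Pool.Agent.H65.BHG.main h (by omega)
  exact ⟨A, h1, h2, h3⟩

end Pool.Agent.Results.MP_3c1669_nt.UpperBound
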